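import Mathlib

/-! Product weights: one and two site marginals, and the weight of the collisions. -/

open scoped Classical
open Finset

noncomputable section
namespace Pool.Agent.Lib.MP_9cc147_pr.Cx.Cp

variable {ι κ : Type} [Fintype ι] [DecidableEq ι] [Fintype κ]

def Gen (a : ι → κ → ℤ) : Prop := ∀ x y, x ≠ y → ∀ i, a x i = 0 ∨ a y i = 0

theorem one_site {β : Type} (V : ι → Finset β) (π : ι → β → ℝ) (h1 : ∀ z, ∑ v ∈ V z, π z v = 1)
    (x : ι) (f : β → ℝ) :
    ∑ a ∈ Fintype.piFinset V, (∏ z, π z (a z)) * f (a x) = ∑ v ∈ V x, π x v * f v := by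
  have h := prod_univ_sum V fun z v => π z v * if z = x then f v else 1
  rw [prod_eq_single x (fun z _ hz => by simp [hz, h1]) (by simp)] at h
  simp only [if_true] at h
  rw [h]
  refine sum_congr rfl fun a _ => ?_
  rw [prod_mul_distrib, prod_ite_eq' univ x fun z => f (a z), if_pos (mem_univ x)]

theorem two_site {β : Type} (V : ι → Finset β) (π : ι → β → ℝ) (h1 : ∀ z, ∑ v ∈ V z, π z v = 1)
    {x y : ι} (hxy : x ≠ y) (f g : β → ℝ) :
    ∑ a ∈ Fintype.piFinset V, (∏ z, π z (a z)) * (f (a x) * g (a y)) =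
      (∑ v ∈ V x, π x v * f v) * ∑ v ∈ V y, π y v * g v := by
  have h := prod_univ_sum V fun z v =>
    π z v * ((if z = x then f v else 1) * if z = y then g v else 1)
  rw [prod_eq_mul_of_mem x y (mem_univ _) (mem_univ _) hxy
    (fun z _ hz => by simp [hz.1, hz.2, h1])] at h
  simp only [if_true, if_neg hxy, if_neg hxy.symm, mul_one, one_mul] at h
  rw [h]
  refine sum_congr rfl fun a _ => ?_
  rw [prod_mul_distrib, prod_mul_distrib, prod_ite_eq' univ x fun z => f (a z),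
    prod_ite_eq' univ y fun z => g (a z), if_pos (mem_univ x), if_pos (mem_univ y)]

theorem collide (V : ι → Finset (κ → ℤ)) (π : ι → (κ → ℤ) → ℝ) {ρ : ℝ} (hρ : 0 ≤ ρ)
    (h0 : ∀ z, ∀ v ∈ V z, 0 ≤ π z v) (h1 : ∀ z, ∑ v ∈ V z, π z v = 1)
    (hs : ∀ z, ∀ v ∈ V z, (univ.filter fun i => v i ≠ 0).card ≤ 2)
    (hh : ∀ z i, ∑ v ∈ (V z).filter (fun v => v i ≠ 0), π z v ≤ ρ) :
    ∑ a ∈ (Fintype.piFinset V).filter (fun a => ¬ Gen a), ∏ z, π z (a z) ≤
      2 * ρ * (Fintype.card ι : ℝ) ^ 2 := by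
  let χ : κ → (κ → ℤ) → ℝ := fun i v => if v i ≠ 0 then 1 else 0
  have χ0 : ∀ i v, 0 ≤ χ i v := fun i v => by simp only [χ]; split_ifs <;> norm_num
  have hp : ∀ a ∈ Fintype.piFinset V, 0 ≤ ∏ z, π z (a z) := fun a ha =>
    prod_nonneg fun z _ => h0 z _ (Fintype.mem_piFinset.1 ha z)
  have step : ∀ a ∈ Fintype.piFinset V, (if ¬ Gen a then ∏ z, π z (a z) else 0) ≤
      ∑ p ∈ (univ : Finset ι).offDiag, ∑ i, (∏ z, π z (a z)) * (χ i (a p.1) * χ i (a p.2)) := by
    intro a ha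
    have nn : ∀ (p : ι × ι) i, 0 ≤ (∏ z, π z (a z)) * (χ i (a p.1) * χ i (a p.2)) := fun p i =>
      mul_nonneg (hp a ha) (mul_nonneg (χ0 _ _) (χ0 _ _))
    split_ifs with hg
    · exact sum_nonneg fun p _ => sum_nonneg fun i _ => nn p i
    · unfold Gen at hg
      push Not at hg
      obtain ⟨x, y, hxy, i, hx, hy⟩ := hg
      refine le_trans ?_ (single_le_sum (f := fun p : ι × ι =>
        ∑ i, (∏ z, π z (a z)) * (χ i (a p.1) * χ i (a p.2)))
        (fun p _ => sum_nonneg fun i _ => nn p i) (mem_offDiag.2 ⟨mem_univ x, mem_univ y, hxy⟩ :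
          (x, y) ∈ _))
      refine le_trans ?_ (single_le_sum (f := fun i =>
        (∏ z, π z (a z)) * (χ i (a x) * χ i (a y))) (fun i _ => nn (x, y) i) (mem_univ i))
      simp [χ, hx, hy]
  rw [sum_filter]
  refine (sum_le_sum step).trans ?_
  rw [sum_comm]
  have pair : ∀ p ∈ (univ : Finset ι).offDiag, ∑ a ∈ Fintype.piFinset V,
      ∑ i, (∏ z, π z (a z)) * (χ i (a p.1) * χ i (a p.2)) ≤ 2 * ρ := by
    intro p hp'
    rw [sum_comm]
    have e : ∀ z i, ∑ v ∈ V z, π z v * χ i v = ∑ v ∈ (V z).filter (fun v => v i ≠ 0), π z v := by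
      intro z i
      rw [sum_filter]
      exact sum_congr rfl fun v _ => by simp only [χ]; split_ifs <;> simp
    calc _ ≤ ∑ i, (∑ v ∈ V p.1, π p.1 v * χ i v) * ρ := by
          refine sum_le_sum fun i _ => ?_
          rw [two_site V π h1 (mem_offDiag.1 hp').2.2, e p.2]
          exact mul_le_mul_of_nonneg_left (hh _ _)
            (sum_nonneg fun v hv => mul_nonneg (h0 _ v hv) (χ0 _ _))
      _ = (∑ v ∈ V p.1, π p.1 v * ((univ.filter fun i => v i ≠ 0).card : ℝ)) * ρ := by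
          rw [← sum_mul, sum_comm]
          refine congrArg (· * ρ) (sum_congr rfl fun v _ => ?_)
          rw [← mul_sum, card_filter]
          push_cast
          rfl
      _ ≤ (∑ v ∈ V p.1, π p.1 v * 2) * ρ :=
          mul_le_mul_of_nonneg_right (sum_le_sum fun v hv => mul_le_mul_of_nonneg_left
            (by exact_mod_cast hs _ v hv) (h0 _ v hv)) hρ
      _ = 2 * ρ := by rw [← sum_mul, h1, one_mul]
  refine (sum_le_card_nsmul _ _ _ pair).trans ?_
  rw [nsmul_eq_mul, mul_comm]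
  refine mul_le_mul_of_nonneg_left ?_ (by positivity)
  have : (univ : Finset ι).offDiag.card ≤ Fintype.card ι ^ 2 := by
    rw [offDiag_card, card_univ, sq]
    exact Nat.sub_le _ _
  exact_mod_cast this

end Pool.Agent.Lib.MP_9cc147_pr.Cx.Cp
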