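import Pool.Agent.Lib.MP_9cc147_pr.Cx.Cp.Site
import Pool.Agent.Lib.MP_9cc147_pr.Cx.Cp.Abs
import Pool.Agent.Lib.MP_9cc147_pr.Cx.P.S

/-! Pure forms on a tile and generic labels; degrees and capacities of the sites. -/

open scoped Classical
open Finset

noncomputable section
namespace Pool.Agent.Lib.MP_9cc147_pr.Cx.Cp

variable {R n L : ℕ} {s : Lab} {T : P}

def dgr (n : ℕ) (x : P) : ℕ := (univ.filter fun d => (x, d) ∈ hes n).card
def ex {S : Finset P} (a : S → Gp R) : P → Gp R := fun x => if h : x ∈ S then a ⟨x, h⟩ else 0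
def fa (n : ℕ) (A : P → Gp R) : Form R := fun e => if e ∈ hes n then A (rev e).1 - A e.1 else 0
def AL (R : ℕ) (s : Lab) (S : Finset P) : Finset (S → Gp R) :=
  Fintype.piFinset fun x => Wk R (typ s x)
def GN (R : ℕ) (s : Lab) (S : Finset P) : Finset (S → Gp R) := (AL R s S).filter Gen

theorem typ_le (s : Lab) (x : P) : typ s x ≤ 2 := by unfold typ; split_ifs <;> omega

theorem typ_adj (s : Lab) (e : P × Fin 4) : typ s e.1 + typ s (rev e).1 = 2 := by
  obtain ⟨x, d⟩ := e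
  have : Even ((rev (x, d)).1.1 + (rev (x, d)).1.2) ↔ ¬ Even (x.1 + x.2) := by
    fin_cases d <;> simp [rev, dir, Int.even_iff] <;> omega
  unfold typ
  simp only [this]
  by_cases h : Even (x.1 + x.2) <;> by_cases h1 : s = 1 <;> by_cases h0 : s = 0 <;> simp [h, h0, h1]

theorem rev_ne (e : P × Fin 4) : e.1 ≠ (rev e).1 := by
  obtain ⟨x, d⟩ := e
  fin_cases d <;> simp [rev, dir, Prod.ext_iff]

theorem ex_in {S : Finset P} (a : S → Gp R) {x : P} (h : x ∈ S) : ex a x = a ⟨x, h⟩ := dif_pos h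
theorem ex_out {S : Finset P} (a : S → Gp R) {x : P} (h : x ∉ S) : ex a x = 0 := dif_neg h

theorem nrm_in {S : Finset P} {a : S → Gp R} (ha : a ∈ AL R s S) {x : P} (h : x ∈ S) :
    nrm (ex a x) = typ s x := by
  rw [ex_in a h]
  exact (mem_Wk (typ_le s x)).1 (Fintype.mem_piFinset.1 ha ⟨x, h⟩)

theorem nrm_ex {S : Finset P} {a : S → Gp R} (ha : a ∈ AL R s S) (x : P) :
    nrm (ex a x) ≤ typ s x := by
  by_cases h : x ∈ S
  · exact (nrm_in ha h).le
  · rw [ex_out a h, Pe.nrm_eq_zero.2 rfl]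
    exact Nat.zero_le _

theorem nrm_edge {S : Finset P} {a : S → Gp R} (ha : a ∈ AL R s S) (e : P × Fin 4) :
    nrm (ex a e.1) + nrm (ex a (rev e).1) ≤ 2 :=
  (add_le_add (nrm_ex ha _) (nrm_ex ha _)).trans (typ_adj s e).le

theorem gen_ex {S : Finset P} {a : S → Gp R} (ha : Gen a) {x y : P} (h : x ≠ y) (i : Fin (ng R)) :
    ex a x i = 0 ∨ ex a y i = 0 := by
  by_cases hx : x ∈ S
  · by_cases hy : y ∈ S
    · rw [ex_in a hx, ex_in a hy]
      exact ha _ _ (fun e => h (congrArg Subtype.val e)) i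
    · rw [ex_out a hy]; exact .inr rfl
  · rw [ex_out a hx]; exact .inl rfl

theorem under1 (L : ℕ) (T : P) : under L {T} = cell L T := by simp [under]

theorem in_pur {a : cell L T → Gp R} (ha : a ∈ GN R s (cell L T)) :
    pureOn n L s (ex a) 0 (fa n (ex a)) {T} ∧ fa n (ex a) ∈ pur R n L 0 s T := by
  obtain ⟨h1, h2⟩ := mem_filter.1 ha
  have hp : pureOn n L s (ex a) 0 (fa n (ex a)) {T} := by
    refine ⟨fun T' hT => ?_, fun e he _ _ => if_pos he⟩
    rw [mem_singleton.1 hT]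
    exact ⟨fun x hx _ => nrm_in h1 hx, fun x _ y _ _ _ h => gen_ex h2 h, fun _ _ _ => rfl⟩
  have hn : ∀ e ∈ hes n, nrm (fa n (ex a) e) = nrm (ex a e.1) + nrm (ex a (rev e).1) := by
    intro e he
    rw [fa, if_pos he]
    exact nrm_sub (gen_ex h2 (rev_ne e))
  refine ⟨hp, mem_filter.2 ⟨mem_filter.2 ⟨Pe.mem_cfgs.2 ⟨fun e he => ?_, fun e he => ?_⟩,
    fun e => ?_, fun e he hx hy => ?_⟩, ex a, hp, fun e he _ hy => ?_⟩⟩
  · have k := (hn e (mem_filter.1 he).1).trans_le (nrm_edge h1 e)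
    have m := (mem_Wk k).2 rfl
    rcases (by omega : nrm (fa n (ex a) e) = 0 ∨ nrm (fa n (ex a) e) = 1 ∨
      nrm (fa n (ex a) e) = 2) with c | c | c <;> rw [c] at m <;> simp [Wl, m]
  · unfold fa
    split_ifs with h
    · have := fun k => he (mem_filter.2 ⟨h, k⟩)
      rw [ex_out a fun k => this (.inl k), ex_out a fun k => this (.inr k), sub_zero]
    · rfl
  · unfold fa
    by_cases h : e ∈ hes n
    · rw [if_pos h, if_pos (Pe.rev_mem h), Pe.rev_rev, neg_sub]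
    · rw [if_neg h, if_neg fun k => h (Pe.rev_rev e ▸ Pe.rev_mem k), neg_zero]
  · refine mem_union_right _ ((mem_Wk le_rfl).2 ?_)
    rw [hn e (mem_filter.1 he).1, nrm_in h1 hx, nrm_in h1 hy, typ_adj]
  · rw [fa, if_pos he, ex_out a hy, zero_sub]

theorem fa_inj (hu : S_uni) (hL : 20 ≤ L) (hT : cell L T ⊆ box n) :
    Set.InjOn (fun a : cell L T → Gp R => fa n (ex a)) (GN R s (cell L T)) := by
  intro a ha b hb h
  have h1 := (in_pur (n := n) ha).1
  have h2 := (in_pur (n := n) hb).1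
  simp only at h
  rw [← h] at h2
  funext x
  have := (hu R n L T s s _ _ _ _ _ hL hT h1 h2).2 x x.2
  rwa [ex_in a x.2, ex_in b x.2] at this

theorem fa_surj (hq : ∀ x ∈ cell L T, ¬ cq n x) {δ : Form R} (h : δ ∈ pur R n L 0 s T) :
    ∃ a ∈ GN R s (cell L T), fa n (ex a) = δ := by
  obtain ⟨hf, A, ⟨hp, hg⟩, hc⟩ := mem_filter.1 h
  obtain ⟨p1, p2, -⟩ := hp T (mem_singleton_self T)
  have fm := Pe.fm_of_forms hf
  rw [under1] at hg
  refine ⟨fun x => A x, mem_filter.2 ⟨Fintype.mem_piFinset.2 fun x =>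
    (mem_Wk (typ_le s x)).2 (p1 x x.2 (hq x x.2)), fun x y hxy =>
      p2 x x.2 y y.2 (hq x x.2) (hq y y.2) fun e => hxy (Subtype.ext e)⟩, funext fun e => ?_⟩
  unfold fa
  split_ifs with he
  · by_cases hx : e.1 ∈ cell L T <;> by_cases hy : (rev e).1 ∈ cell L T
    · rw [ex_in _ hx, ex_in _ hy, hg e he hx hy]
    · rw [ex_in _ hx, ex_out _ hy, hc e he hx hy, zero_sub]
    · have := hc (rev e) (Pe.rev_mem he) hy (by rwa [Pe.rev_rev])
      rw [fm.asy] at this
      rw [ex_out _ hx, ex_in _ hy, sub_zero, neg_injective this]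
    · rw [ex_out _ hx, ex_out _ hy, sub_zero, fm.off e fun k => (mem_filter.1 k).2.elim hx hy]
  · exact (fm.off e fun k => he (mem_filter.1 k).1).symm

theorem prod_out (S : Finset P) (F : P × Fin 4 → ℝ) :
    ∏ e ∈ (hes n).filter (fun e => e.1 ∈ S), F e =
      ∏ x ∈ S, ∏ d ∈ univ.filter (fun d => (x, d) ∈ hes n), F (x, d) :=
  prod_finset_product _ _ _ fun p => by simp [and_comm]

theorem sum_out (S : Finset P) (F : P × Fin 4 → ℝ) :
    ∑ e ∈ (hes n).filter (fun e => e.1 ∈ S), F e =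
      ∑ x ∈ S, ∑ d ∈ univ.filter (fun d => (x, d) ∈ hes n), F (x, d) :=
  sum_finset_product _ _ _ fun p => by simp [and_comm]

theorem rev_he {S : Finset P} {e : P × Fin 4} (h : e ∈ he n S) : rev e ∈ he n S :=
  mem_filter.2 ⟨Pe.rev_mem (mem_filter.1 h).1, by
    rw [Pe.rev_rev]; exact (mem_filter.1 h).2.symm⟩

theorem pw_fa (o : Mod) (h0 : ∀ w, 0 ≤ o.xw w) {S : Finset P} {a : S → Gp o.R}
    (ha : a ∈ AL o.R s S) : pw o n S (fa n (ex a)) = ∏ x : S, o.xw (a x) ^ dgr n x := by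
  have e1 : pw o n S (fa n (ex a)) = (∏ e ∈ he n S, Real.sqrt (o.xw (ex a e.1))) *
      ∏ e ∈ he n S, Real.sqrt (o.xw (ex a (rev e).1)) := by
    rw [← prod_mul_distrib]
    refine prod_congr rfl fun e he => ?_
    rw [fa, if_pos (mem_filter.1 he).1, (edge o (nrm_edge ha e)).1, Real.sqrt_mul (h0 _)]
  have e2 : ∏ e ∈ he n S, Real.sqrt (o.xw (ex a (rev e).1)) =
      ∏ e ∈ he n S, Real.sqrt (o.xw (ex a e.1)) :=
    prod_nbij' rev rev (fun _ h => rev_he h) (fun _ h => rev_he h) (fun e _ => Pe.rev_rev e)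
      (fun e _ => Pe.rev_rev e) fun _ _ => rfl
  have e3 : ∏ e ∈ (hes n).filter (fun e => e.1 ∈ S), o.xw (ex a e.1) =
      ∏ e ∈ he n S, o.xw (ex a e.1) := by
    refine prod_subset (fun e h => mem_filter.2 ⟨(mem_filter.1 h).1, .inl (mem_filter.1 h).2⟩)
      fun e h1 h2 => ?_
    rw [ex_out a fun k => h2 (mem_filter.2 ⟨(mem_filter.1 h1).1, k⟩)]
    simp [Mod.xw, isG]
  rw [e1, e2, ← prod_mul_distrib, prod_congr rfl fun e _ => Real.mul_self_sqrt (h0 _), ← e3,
    prod_out, ← prod_coe_sort S]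
  refine prod_congr rfl fun x _ => ?_
  simp only [prod_const, ex_in a x.2, dgr]

theorem hes_iff {x : P} (hx : x ∈ box n) : ((x, 0) ∈ hes n ↔ x.1 + 1 < n) ∧
    ((x, 1) ∈ hes n ↔ x.2 + 1 < n) ∧ ((x, 2) ∈ hes n ↔ 0 < x.1) ∧ ((x, 3) ∈ hes n ↔ 0 < x.2) := by
  rw [Pe.mem_box] at hx
  simp only [Pe.mem_hes, Pe.mem_box, rev, dir]
  simp
  omega

theorem dgr_eq {x : P} (hx : x ∈ box n) (hn : 2 ≤ n) : dgr n x ≤ 4 ∧ (deep 1 n x → dgr n x = 4) ∧
    (¬ deep 1 n x → ¬ corner n x → dgr n x = 3) := by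
  obtain ⟨h0, h1, h2, h3⟩ := hes_iff hx
  rw [Pe.mem_box] at hx
  rw [dgr, card_filter, Fin.sum_univ_four]
  simp only [h0, h1, h2, h3, deep, corner]
  push_cast
  split_ifs <;> omega

theorem cap_site {x : P} (hx : x ∈ box n) (hn : 2 ≤ n) :
    ∑ d ∈ univ.filter (fun d => (x, d) ∈ hes n), cap n (x, d) =
      1 - if corner n x then 1 / 4 else 0 := by
  obtain ⟨h0, h1, h2, h3⟩ := hes_iff hx
  rw [Pe.mem_box] at hx
  have c : ∀ d, (x, d) ∈ hes n → cap n (x, d) =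
      if (if d = 0 ∨ d = 2 then x.2 = 0 ∨ x.2 = n - 1 else x.1 = 0 ∨ x.1 = n - 1)
        then 3 / 8 else 1 / 4 := by
    intro d hd
    refine if_congr ?_ rfl rfl
    fin_cases d <;> simp [h0, h1, h2, h3] at hd <;> simp [ring, sqr, inn, crn] <;> omega
  rw [sum_congr rfl fun d hd => c d (mem_filter.1 hd).2, sum_filter, Fin.sum_univ_four]
  simp only [h0, h1, h2, h3, corner]
  simp only [Fin.isValue, true_or, or_true, if_true, Fin.reduceEq, or_self, if_false]
  split_ifs <;> first | omega | norm_num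

theorem cap_rev (e : P × Fin 4) : cap n (rev e) = cap n e := by
  have : (rev e).1 + crn (rev e).2 = e.1 + crn (e.2 + 1) ∧
      (rev e).1 + crn ((rev e).2 + 1) = e.1 + crn e.2 := by
    obtain ⟨x, d⟩ := e
    fin_cases d <;> simp [rev, dir, crn, Prod.ext_iff]
  rw [cap, this.1, this.2, cap]
  exact if_congr or_comm rfl rfl

theorem nexp_eq (hn : 2 ≤ n) (hT : cell L T ⊆ box n) :
    nexp n L {T} (fun _ => some s) + cor n (cell L T) s = ∑ x ∈ cell L T, (typ s x : ℝ) := by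
  let g : P × Fin 4 → ℝ := fun e => ((typ s e.1 : ℝ) - 1) * cap n e
  have e1 : ∑ e ∈ (hes n).filter (fun e => e.1 ∈ cell L T), g e =
      ∑ x ∈ cell L T, ((typ s x : ℝ) - 1) - cor n (cell L T) s := by
    rw [sum_out, cor, sum_filter, ← sum_sub_distrib]
    refine sum_congr rfl fun x hx => ?_
    simp only [g]
    rw [← mul_sum, cap_site (hT hx) hn]
    split_ifs <;> ring
  have e2 : ∑ e ∈ ((hes n).filter (fun e => e.1 ∈ cell L T)).filter
      (fun e => (rev e).1 ∈ cell L T), g e = 0 := by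
    refine sum_involution (fun e _ => rev e) (fun e _ => ?_) (fun e _ _ k => ?_) (fun e h => ?_)
      fun e _ => Pe.rev_rev e
    · have : (typ s e.1 : ℝ) + typ s (rev e).1 = 2 := by exact_mod_cast typ_adj s e
      simp only [g]
      rw [cap_rev, ← add_mul, show (typ s e.1 : ℝ) - 1 + (typ s (rev e).1 - 1) = 0 by linarith,
        zero_mul]
    · exact rev_ne e (congrArg Prod.fst k).symm
    · simp only [mem_filter, Pe.rev_rev] at h ⊢
      exact ⟨⟨Pe.rev_mem h.1.1, h.2⟩, h.1.2⟩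
  rw [← sum_filter_add_sum_filter_not _ (fun e => (rev e).1 ∈ cell L T), e2, zero_add,
    filter_filter, sum_sub_distrib, sum_const, Pe.card_cell] at e1
  have e3 : nexp n L {T} (fun _ => some s) = (L : ℝ) ^ 2 + ∑ e ∈ crs n (cell L T), g e := by
    rw [nexp, under1, card_singleton, Nat.cast_one, mul_one]
    rfl
  rw [e3, crs, e1, nsmul_eq_mul]
  push_cast
  ring

end Pool.Agent.Lib.MP_9cc147_pr.Cx.Cp
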