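import Pool.Agent.Lib.MP_9cc147_pr.Cx.Cp.Bij

/-! The weight of the pure forms on a tile against the product of the site sums. -/

open scoped Classical
open Finset

noncomputable section
namespace Pool.Agent.Lib.MP_9cc147_pr.Cx.Cp

structure Ok (o : Mod) : Prop where
  ev : Even o.R
  one : 1 ≤ o.R
  τ : (o.a, o.x1) ∈ rect

variable {o : Mod} {n L : ℕ} {s : Lab} {T : P}

theorem Ok.facts (h : Ok o) : 0 ≤ o.x1 ∧ o.x1 ≤ 1 ∧ 0 ≤ o.x2 ∧
    o.x2 ^ 4 = 4 * Real.exp o.a - 2 - 2 * o.x1 ^ 4 ∧ (∀ d ≤ 4, o.x2 ^ d ≤ 3) ∧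
    0 ≤ o.gam ∧ o.gam ≤ 1 := by
  obtain ⟨⟨a0, a1⟩, b0, b1⟩ := h.τ
  simp only at a0 a1 b0 b1
  have e1 := Real.add_one_le_exp o.a
  have e2 := Real.add_one_le_exp (-o.a)
  have e3 : Real.exp o.a * Real.exp (-o.a) = 1 := by rw [← Real.exp_add]; simp
  have e4 := Real.exp_pos o.a
  have e5 := Real.exp_pos (-o.a)
  have x4 : o.x1 ^ 4 ≤ (9 / 10) ^ 4 := pow_le_pow_left₀ (by linarith) b1 4
  have x0 : 0 ≤ o.x1 ^ 4 := by positivity
  have y0 : 0 ≤ 4 * Real.exp o.a - 2 - 2 * o.x1 ^ 4 := by linarith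
  have p0 : 0 ≤ o.x2 := Real.rpow_nonneg y0 _
  have p4 : o.x2 ^ 4 = 4 * Real.exp o.a - 2 - 2 * o.x1 ^ 4 := by
    have := Real.rpow_inv_natCast_pow y0 (by norm_num : (4 : ℕ) ≠ 0)
    rw [Mod.x2, one_div]
    exact_mod_cast this
  refine ⟨by linarith, by linarith, p0, p4, fun d hd => ?_, ?_, ?_⟩
  · rcases le_total o.x2 1 with c | c
    · exact (pow_le_one₀ p0 c).trans (by norm_num)
    · exact (pow_le_pow_right₀ c hd).trans (by nlinarith)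
  · unfold Mod.gam; nlinarith
  · unfold Mod.gam; linarith

theorem Ok.xw0 (h : Ok o) (w : Gp o.R) : 0 ≤ o.xw w ∧ o.xw w ≤ 3 := by
  obtain ⟨h1, h2, h3, -, h5, -⟩ := h.facts
  have := h5 1 (by norm_num)
  rw [pow_one] at this
  unfold Mod.xw
  split_ifs
  · exact ⟨h3, this⟩
  · exact ⟨h1, by linarith⟩
  · norm_num

theorem Ok.r1 (h : Ok o) : (1 : ℝ) ≤ o.R := by exact_mod_cast h.one
theorem Ok.r0 (h : Ok o) : 0 < o.r := by have := h.r1; unfold Mod.r; linarith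

def Zs (o : Mod) (d k : ℕ) : ℝ := ∑ w ∈ Wk o.R k, o.xw w ^ d

theorem Ok.Zv (h : Ok o) (d : ℕ) {k : ℕ} (hk : k ≤ 2) :
    Zs o d k = o.r ^ k * if k = 2 then 1 / 2 + o.x1 ^ d / 2 + o.x2 ^ d / 4 else 1 := by
  have e : Zs o d k = gs (cz o.R 1 (o.x1 ^ d) (o.x2 ^ d)) k :=
    sum_congr rfl fun w hw => xw_pow o (((mem_Wk hk).1 hw).trans_le hk) d
  obtain ⟨h0, h1, h2⟩ := gs_cz h.ev (o.x1 ^ d) (o.x2 ^ d)
  rw [e, Mod.r]
  rcases (by omega : k = 0 ∨ k = 1 ∨ k = 2) with rfl | rfl | rfl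
  · simp [h0]
  · simp [h1]
  · simp [h2]

theorem Ok.Zl (h : Ok o) (d : ℕ) {k : ℕ} (hk : k ≤ 2) : o.r ^ k / 2 ≤ Zs o d k := by
  obtain ⟨h1, -, h3, -⟩ := h.facts
  have := pow_pos h.r0 k
  have := pow_nonneg h1 d
  have := pow_nonneg h3 d
  rw [h.Zv d hk]
  split_ifs <;> nlinarith

theorem Ok.Z0 (h : Ok o) (d : ℕ) {k : ℕ} (hk : k ≤ 2) : 0 < Zs o d k :=
  lt_of_lt_of_le (half_pos (pow_pos h.r0 k)) (h.Zl d hk)

theorem Ok.hit (h : Ok o) {d k : ℕ} (hd : d ≤ 4) (hk : k ≤ 2) (i : Fin (ng o.R)) :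
    ∑ w ∈ (Wk o.R k).filter (fun w => w i ≠ 0), o.xw w ^ d / Zs o d k ≤ 5 / o.R := by
  obtain ⟨h1, h2, h3, -, h5, -⟩ := h.facts
  have b := hit_cz (R := o.R) ((pow_le_one₀ h1 h2 (n := d)).trans (by norm_num : (1 : ℝ) ≤ 3))
    (h5 d hd) i k hk
  have z := h.Zl d hk
  have r1 := h.r1
  rw [← sum_div, sum_congr rfl fun w hw =>
    xw_pow o (((mem_Wk hk).1 (mem_filter.1 hw).1).trans_le hk) d,
    div_le_div_iff₀ (h.Z0 d hk) (by linarith)]
  refine (mul_le_mul_of_nonneg_right b (by linarith)).trans ?_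
  rw [Mod.r] at z
  rcases (by omega : k = 0 ∨ k = 1 ∨ k = 2) with rfl | rfl | rfl <;> norm_num at z ⊢ <;> nlinarith

theorem Ok.heavy (h : Ok o) :
    ∑ w ∈ Wk o.R 2, o.xw w ^ 4 / Zs o 4 2 * ((if isG w then 1 else 0) - o.gam) = 0 := by
  obtain ⟨-, -, -, h4, -⟩ := h.facts
  have z : Zs o 4 2 = o.r ^ 2 * Real.exp o.a := by
    rw [h.Zv 4 le_rfl, if_pos rfl, h4]; ring
  have e : ∀ w ∈ Wk o.R 2, o.xw w ^ 4 / Zs o 4 2 * ((if isG w then 1 else 0) - o.gam) =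
      (o.xw w ^ 4 * (1 - o.gam) - wc (cz o.R 1 0 0) w) / Zs o 4 2 := by
    intro w hw
    rw [wc_cz ((mem_Wk le_rfl).1 hw).le]
    by_cases hG : isG w
    · simp only [hG, if_true, ite_self]; ring
    · rw [Mod.xw, if_neg hG, if_neg hG, if_neg hG,
        if_neg fun ⟨i, hi, hw⟩ => hG ⟨i, by omega, hw⟩,
        if_neg fun ⟨i, hi, hw⟩ => hG ⟨i, by omega, hw⟩]
      ring
  rw [sum_congr rfl e, ← sum_div, sum_sub_distrib, ← sum_mul, div_eq_zero_iff]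
  left
  change Zs o 4 2 * _ - gs _ 2 = 0
  rw [(gs_cz h.ev 0 0).2.2, z, Mod.gam, Mod.r, Real.exp_neg]
  have := (Real.exp_pos o.a).ne'
  field_simp
  ring

def uw (o : Mod) (n : ℕ) {S : Finset P} (a : S → Gp o.R) : ℝ := ∏ x : S, o.xw (a x) ^ dgr n x
def PZ (o : Mod) (n : ℕ) (s : Lab) (S : Finset P) : ℝ := ∏ x : S, Zs o (dgr n x) (typ s x)
def SG (o : Mod) (n : ℕ) (s : Lab) (S : Finset P) : ℝ := ∑ a ∈ GN o.R s S, uw o n a

theorem Ok.PZ0 (h : Ok o) (S : Finset P) : 0 < PZ o n s S :=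
  prod_pos fun _ _ => h.Z0 _ (typ_le _ _)

theorem Ok.uw0 (h : Ok o) {S : Finset P} (a : S → Gp o.R) : 0 ≤ uw o n a :=
  prod_nonneg fun _ _ => pow_nonneg (h.xw0 _).1 _

theorem Ok.uw_eq (h : Ok o) (s : Lab) {S : Finset P} (a : S → Gp o.R) : uw o n a =
    PZ o n s S * ∏ x : S, o.xw (a x) ^ dgr n x / Zs o (dgr n x) (typ s x) := by
  rw [prod_div_distrib]
  exact (mul_div_cancel₀ _ (h.PZ0 S).ne').symm

theorem Ok.nrm1 (h : Ok o) (x : P) :
    ∑ v ∈ Wk o.R (typ s x), o.xw v ^ dgr n x / Zs o (dgr n x) (typ s x) = 1 := by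
  rw [← sum_div]
  exact div_self (h.Z0 _ (typ_le _ _)).ne'

theorem Ok.bad (h : Ok o) {S : Finset P} (hS : S ⊆ box n) (hn : 2 ≤ n) :
    ∑ a ∈ (AL o.R s S).filter (fun a => ¬ Gen a), uw o n a ≤
      10 * (S.card : ℝ) ^ 2 / o.R * PZ o n s S := by
  have c := collide (ι := S) (fun x => Wk o.R (typ s x))
    (fun x v => o.xw v ^ dgr n x / Zs o (dgr n x) (typ s x)) (ρ := 5 / o.R) (by positivity)
    (fun x v _ => div_nonneg (pow_nonneg (h.xw0 _).1 _) (h.Z0 _ (typ_le _ _)).le)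
    (fun x => h.nrm1 x)
    (fun x v hv => (card_supp v).trans (((mem_Wk (typ_le _ _)).1 hv).trans_le (typ_le _ _)))
    fun x i => h.hit (dgr_eq (hS x.2) hn).1 (typ_le _ _) i
  rw [sum_congr rfl fun a _ => h.uw_eq s a, ← mul_sum, mul_comm]
  refine mul_le_mul_of_nonneg_right (c.trans (le_of_eq ?_)) (h.PZ0 S).le
  rw [Fintype.card_coe]
  ring

theorem Ok.sg (h : Ok o) {S : Finset P} (hS : S ⊆ box n) (hn : 2 ≤ n) :
    (1 - 10 * (S.card : ℝ) ^ 2 / o.R) * PZ o n s S ≤ SG o n s S ∧ SG o n s S ≤ PZ o n s S := by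
  have e : SG o n s S + ∑ a ∈ (AL o.R s S).filter (fun a => ¬ Gen a), uw o n a = PZ o n s S := by
    rw [SG, GN, sum_filter_add_sum_filter_not, PZ]
    exact (prod_univ_sum _ fun (x : S) v => o.xw v ^ dgr n x).symm
  have b := h.bad (s := s) hS hn
  have := sum_nonneg (s := (AL o.R s S).filter fun a => ¬ Gen a) fun a _ => h.uw0 (n := n) a
  exact ⟨by linarith, by linarith⟩

theorem Ok.low (h : Ok o) (hu : S_uni) (hL : 20 ≤ L) (hT : cell L T ⊆ box n) :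
    SG o n s (cell L T) ≤ ∑ δ ∈ pur o.R n L 0 s T, pw o n (cell L T) δ := by
  have e : SG o n s (cell L T) = ∑ δ ∈ (GN o.R s (cell L T)).image (fun a => fa n (ex a)),
      pw o n (cell L T) δ := by
    rw [sum_image (fa_inj hu hL hT)]
    exact sum_congr rfl fun a ha => (pw_fa o (fun w => (h.xw0 w).1) (mem_filter.1 ha).1).symm
  rw [e]
  refine sum_le_sum_of_subset_of_nonneg (fun δ hδ => ?_) fun δ _ _ =>
    prod_nonneg fun _ _ => Real.sqrt_nonneg _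
  obtain ⟨a, ha, rfl⟩ := mem_image.1 hδ
  exact (in_pur ha).2

theorem Ok.sum_pur (h : Ok o) (hu : S_uni) (hL : 20 ≤ L) (hT : cell L T ⊆ box n)
    (hq : ∀ x ∈ cell L T, ¬ cq n x) (F : Form o.R → ℝ) :
    ∑ δ ∈ pur o.R n L 0 s T, pw o n (cell L T) δ * F δ =
      ∑ a ∈ GN o.R s (cell L T), uw o n a * F (fa n (ex a)) := by
  have e : pur o.R n L 0 s T = (GN o.R s (cell L T)).image fun a => fa n (ex a) := by
    ext δ
    rw [mem_image]
    exact ⟨fa_surj hq, fun ⟨a, ha, e⟩ => e ▸ (in_pur ha).2⟩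
  rw [e, sum_image (fa_inj hu hL hT)]
  exact sum_congr rfl fun a ha => by
    rw [pw_fa o (fun w => (h.xw0 w).1) (mem_filter.1 ha).1, uw]

/-- geometry of a tile -/
theorem tile {m : ℕ} (hL : 20 ≤ L) (hT : T ∈ box m) : cell L T ⊆ box (L * m) ∧ 2 ≤ L * m ∧
    (¬ corner m T → ∀ x ∈ cell L T, ¬ cq (L * m) x) ∧
    (deep 1 m T → ¬ corner m T ∧ ∀ x ∈ cell L T, deep 1 (L * m) x) := by
  have h1 : 1 ≤ L := by omega
  have hb := Pe.mem_box.1 hT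
  have hL' : (20 : ℤ) ≤ L := by exact_mod_cast hL
  have hm : 1 ≤ m := by omega
  have k1 : ∀ t x : ℤ, 0 ≤ t → t ≠ 0 → t * L ≤ x → (L : ℤ) ≤ x := fun t x a b c => by
    have : 1 ≤ t := by omega
    nlinarith
  have k2 : ∀ t x : ℤ, t < m → t ≠ m - 1 → x < (t + 1) * L → x + L < L * m := fun t x a b c => by
    have : t + 2 ≤ m := by omega
    nlinarith
  refine ⟨fun x hx => (Pe.par_box h1).2 (((Pe.mem_cell h1).1 hx).symm ▸ hT), by nlinarith,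
    fun hc x hx hq => hc ?_, fun hd => ⟨?_, fun x hx => ?_⟩⟩
  · simp only [cell, mem_product, mem_Ico] at hx
    simp only [cq, Nat.cast_mul] at hq
    constructor
    · by_contra hn
      push Not at hn
      have := k1 _ _ hb.1.1 hn.1 hx.1.1
      have := k2 _ _ hb.1.2 hn.2 hx.1.2
      omega
    · by_contra hn
      push Not at hn
      have := k1 _ _ hb.2.1 hn.1 hx.2.1
      have := k2 _ _ hb.2.2 hn.2 hx.2.2
      omega
  · simp only [deep, corner] at hd ⊢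
    omega
  · simp only [cell, mem_product, mem_Ico] at hx
    simp only [deep, Nat.cast_mul, Nat.cast_one] at hd ⊢
    have := k1 _ _ hb.1.1 (by omega) hx.1.1
    have := k2 _ _ hb.1.2 (by omega) hx.1.2
    have := k1 _ _ hb.2.1 (by omega) hx.2.1
    have := k2 _ _ hb.2.2 (by omega) hx.2.2
    omega

theorem n_eq (q : Par) (b : ℕ × ℕ) : q.n b = q.L * q.m b 0 := by
  simp only [Par.n, Par.m, Nat.sub_zero]
  ring

end Pool.Agent.Lib.MP_9cc147_pr.Cx.Cp
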