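import Pool.Agent.Lib.MP_9cc147_pr.Cx.Pe.Bas

/-! Sums over the labels of one site. -/

open scoped Classical
open Finset

noncomputable section
namespace Pool.Agent.Lib.MP_9cc147_pr.Cx.Cp

variable {R : ℕ}

theorem coeff_prod {ι : Type} (s : Finset ι) (p : ι → Polynomial ℝ)
    (h0 : ∀ i, (p i).coeff 0 = 1) :
    (∏ i ∈ s, p i).coeff 0 = 1 ∧ (∏ i ∈ s, p i).coeff 1 = ∑ i ∈ s, (p i).coeff 1 ∧
      (∏ i ∈ s, p i).coeff 2 = ∑ i ∈ s, (p i).coeff 2 +
        ((∑ i ∈ s, (p i).coeff 1) ^ 2 - ∑ i ∈ s, (p i).coeff 1 ^ 2) / 2 := by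
  have a0 : antidiagonal 0 = {((0 : ℕ), (0 : ℕ))} := by decide
  have a1 : antidiagonal 1 = {((0 : ℕ), (1 : ℕ)), (1, 0)} := by decide
  have a2 : antidiagonal 2 = {((0 : ℕ), (2 : ℕ)), (1, 1), (2, 0)} := by decide
  induction s using Finset.induction_on with
  | empty => simp [Polynomial.coeff_one]
  | insert a s ha ih =>
    obtain ⟨i0, i1, i2⟩ := ih
    simp only [prod_insert ha, sum_insert ha, Polynomial.coeff_mul, a0, a1, a2]
    refine ⟨by simp [i0, h0], ?_, ?_⟩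
    · rw [sum_pair (by decide)]
      simp only [i0, i1, h0]
      ring
    · rw [sum_insert (by decide), sum_pair (by decide)]
      simp only [i0, i1, i2, h0]
      ring

/-- weight of a label when a nonzero coordinate `i` costs `c i` -/
def wc (c : Fin (ng R) → ℝ) (w : Gp R) : ℝ := ∏ i, if w i = 0 then 1 else c i
def gs (c : Fin (ng R) → ℝ) (k : ℕ) : ℝ := ∑ w ∈ Wk R k, wc c w
def lt2 (c : Fin (ng R) → ℝ) (i : Fin (ng R)) : ℝ := if i.val < R then 2 * c i else 0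

theorem gs_eq (c : Fin (ng R) → ℝ) : gs c 0 = 1 ∧ gs c 1 = ∑ i, lt2 c i ∧
    gs c 2 = ∑ i, 2 * c i + ((∑ i, lt2 c i) ^ 2 - ∑ i, lt2 c i ^ 2) / 2 := by
  let p : Fin (ng R) → Polynomial ℝ := fun i => ∑ j ∈ Icc (-2 : ℤ) 2,
    Polynomial.C (if j = 0 then 1 else c i) * Polynomial.X ^ (mu R i * j.natAbs)
  have hI : Icc (-2 : ℤ) 2 = {-2, -1, 0, 1, 2} := by decide
  have hp : ∀ i, (p i).coeff 0 = 1 ∧ (p i).coeff 1 = lt2 c i ∧ (p i).coeff 2 = 2 * c i := by
    intro i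
    simp only [p, hI, Polynomial.finsetSum_coeff, Polynomial.coeff_C_mul_X_pow, lt2, mu]
    by_cases h : i.val < R
    · simp [h]
      ring
    · simp [h]
      ring
  have hc : ∀ k, (∏ i, p i).coeff k = gs c k := by
    intro k
    simp only [p]
    rw [prod_univ_sum, Polynomial.finsetSum_coeff, gs, Wk, sum_filter]
    refine sum_congr rfl fun w _ => ?_
    rw [prod_mul_distrib, ← map_prod, prod_pow_eq_pow_sum, Polynomial.coeff_C_mul_X_pow]
    simp only [nrm, wc, eq_comm]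
  obtain ⟨h0, h1, h2⟩ := coeff_prod univ p fun i => (hp i).1
  rw [hc] at h0 h1 h2
  simp only [fun i => (hp i).2.1, fun i => (hp i).2.2] at h1 h2
  exact ⟨h0, h1, h2⟩

def cz (R : ℕ) (α β γ : ℝ) (i : Fin (ng R)) : ℝ :=
  if i.val < R then α else if i.val < R + R ^ 2 then β else γ

theorem sum_cz (α β γ : ℝ) :
    ∑ i, cz R α β γ i = R * α + R ^ 2 * β + ((R ^ 2 / 2 : ℕ) : ℝ) * γ := by
  unfold cz
  rw [Fin.sum_univ_eq_sum_range (fun i => if i < R then α else if i < R + R ^ 2 then β else γ),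
    ng, sum_range_add, sum_range_add,
    sum_congr rfl (g := fun _ => α) (fun i hi => if_pos (mem_range.1 hi)),
    sum_congr (s₁ := range (R ^ 2)) rfl (g := fun _ => β) (fun i hi => by
      have := mem_range.1 hi
      rw [if_neg (by omega), if_pos (by omega)]),
    sum_congr (s₁ := range (R ^ 2 / 2)) rfl (g := fun _ => γ) (fun i _ => by
      rw [if_neg (by omega), if_neg (by omega)])]
  simp

theorem sum_lt2 (β γ : ℝ) : ∑ i, lt2 (cz R 1 β γ) i = 2 * R ∧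
    ∑ i, lt2 (cz R 1 β γ) i ^ 2 = 4 * R := by
  have e1 : ∀ i, lt2 (cz R 1 β γ) i = cz R 2 0 0 i := fun i => by
    unfold lt2 cz; split_ifs <;> ring
  have e2 : ∀ i, cz R 2 0 0 i ^ 2 = cz R 4 0 0 i := fun i => by
    unfold cz; split_ifs <;> ring
  simp only [e1, e2, sum_cz]
  exact ⟨by ring, by ring⟩

theorem gs_cz (hR : Even R) (β γ : ℝ) : gs (cz R 1 β γ) 0 = 1 ∧ gs (cz R 1 β γ) 1 = 2 * R ∧
    gs (cz R 1 β γ) 2 = (2 * R) ^ 2 * (1 / 2 + β / 2 + γ / 4) := by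
  obtain ⟨h0, h1, h2⟩ := gs_eq (cz R 1 β γ)
  obtain ⟨e1, e2⟩ := sum_lt2 (R := R) β γ
  refine ⟨h0, h1.trans e1, ?_⟩
  have hd : ((R ^ 2 / 2 : ℕ) : ℝ) = R ^ 2 / 2 := by
    rw [Nat.cast_div (even_iff_two_dvd.1 (hR.pow_of_ne_zero two_ne_zero)) (by norm_num)]
    push_cast; rfl
  rw [h2, e1, e2, ← mul_sum, sum_cz, hd]
  ring

theorem hit_cz {β γ : ℝ} (hβ : β ≤ 3) (hγ : γ ≤ 3) (i0 : Fin (ng R)) (k : ℕ) (hk : k ≤ 2) :
    ∑ w ∈ (Wk R k).filter (fun w => w i0 ≠ 0), wc (cz R 1 β γ) w ≤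
      if k = 0 then 0 else if k = 1 then 2 else 6 + 4 * (R : ℝ) := by
  set c := cz R 1 β γ with hc
  have e : ∑ w ∈ (Wk R k).filter (fun w => w i0 ≠ 0), wc c w =
      gs c k - gs (Function.update c i0 0) k := by
    rw [gs, gs, ← sum_sub_distrib, sum_filter]
    refine sum_congr rfl fun w _ => ?_
    by_cases h : w i0 = 0
    · rw [if_neg (by simpa using h), eq_comm, sub_eq_zero]
      refine prod_congr rfl fun i _ => ?_
      by_cases hi : i = i0
      · simp [hi, h]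
      · simp [Function.update_of_ne hi]
    · rw [if_pos h, eq_comm, sub_eq_self]
      exact prod_eq_zero (mem_univ i0) (by simp [h])
  have up : ∀ g : Fin (ng R) → ℝ → ℝ, (∀ i, g i 0 = 0) →
      ∑ i, g i (Function.update c i0 0 i) = ∑ i, g i (c i) - g i0 (c i0) := by
    intro g hg
    rw [← add_sum_erase _ _ (mem_univ i0), ← add_sum_erase _ (fun i => g i (c i)) (mem_univ i0),
      Function.update_self, hg, sum_congr rfl fun i hi => by
        rw [Function.update_of_ne (mem_erase.1 hi).1]]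
    ring
  obtain ⟨h0, h1, h2⟩ := gs_eq c
  obtain ⟨g0, g1, g2⟩ := gs_eq (Function.update c i0 0)
  obtain ⟨e1, e2⟩ := sum_lt2 (R := R) β γ
  have u1 := up (fun i x => if i.val < R then 2 * x else 0) (by simp)
  have u2 := up (fun i x => (if i.val < R then 2 * x else 0) ^ 2) (by simp)
  have u3 := up (fun _ x => 2 * x) (by simp)
  have t : lt2 c i0 = 2 ∨ lt2 c i0 = 0 := by
    rw [hc]; unfold lt2 cz; split_ifs <;> simp
  have c3 : c i0 ≤ 3 := by rw [hc]; unfold cz; split_ifs <;> linarith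
  change ∑ i, lt2 (Function.update c i0 0) i = ∑ i, lt2 c i - lt2 c i0 at u1
  change ∑ i, lt2 (Function.update c i0 0) i ^ 2 = ∑ i, lt2 c i ^ 2 - lt2 c i0 ^ 2 at u2
  have hR : (0 : ℝ) ≤ R := Nat.cast_nonneg R
  rw [e]
  rcases (by omega : k = 0 ∨ k = 1 ∨ k = 2) with rfl | rfl | rfl
  · simp [h0, g0]
  · rw [h1, g1, u1]
    rcases t with t | t <;> simp [t]
  · rw [h2, g2, u1, u2, u3, e1, e2]
    rcases t with t | t <;> rw [t] <;> norm_num <;> nlinarith

theorem term_le (w : Gp R) (i : Fin (ng R)) : mu R i * (w i).natAbs ≤ nrm w :=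
  single_le_sum (f := fun i => mu R i * (w i).natAbs) (fun _ _ => Nat.zero_le _) (mem_univ i)

theorem mem_Wk {w : Gp R} {k : ℕ} (hk : k ≤ 2) : w ∈ Wk R k ↔ nrm w = k := by
  refine ⟨fun h => (mem_filter.1 h).2, fun h => mem_filter.2 ⟨?_, h⟩⟩
  refine Fintype.mem_piFinset.2 fun i => ?_
  have h1 := term_le w i
  have h2 := Nat.mul_le_mul_right (w i).natAbs (Pe.mu_pos (R := R) i)
  rw [mem_Icc]
  omega

theorem light {w : Gp R} (h : nrm w ≤ 1) (i : Fin (ng R)) (hi : R ≤ i.val) : w i = 0 := by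
  have h1 := term_le w i
  rw [mu, if_neg (by omega)] at h1
  omega

theorem card_supp (w : Gp R) : (univ.filter fun i => w i ≠ 0).card ≤ nrm w := by
  rw [card_filter]
  refine sum_le_sum fun i _ => ?_
  have := Pe.mu_pos (R := R) i
  split_ifs with h
  · exact Nat.mul_pos this (Int.natAbs_pos.2 h)
  · exact Nat.zero_le _

theorem only {w : Gp R} (h : nrm w ≤ 2) {i : Fin (ng R)} (hi : R ≤ i.val) (hw : w i ≠ 0)
    {j : Fin (ng R)} (hj : j ≠ i) : w j = 0 := by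
  have h1 : ∑ l ∈ {i, j}, mu R l * (w l).natAbs ≤ nrm w := sum_le_sum_of_subset (subset_univ _)
  rw [sum_pair hj.symm, mu, if_neg (by omega)] at h1
  have h2 := Nat.mul_le_mul_right (w j).natAbs (Pe.mu_pos (R := R) j)
  have := Int.natAbs_pos.2 hw
  omega

theorem wc_cz {w : Gp R} (h : nrm w ≤ 2) (β γ : ℝ) : wc (cz R 1 β γ) w =
    if ∃ i, R + R ^ 2 ≤ i.val ∧ w i ≠ 0 then γ else if isG w then β else 1 := by
  by_cases hG : isG w
  · obtain ⟨i, hi, hw⟩ := hG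
    have : wc (cz R 1 β γ) w = cz R 1 β γ i := by
      rw [wc, prod_eq_single i (fun j _ hj => if_pos (only h hi hw hj)) (by simp), if_neg hw]
    rw [this, cz, if_neg (by omega), if_pos (c := isG w) ⟨i, hi, hw⟩]
    by_cases h2 : i.val < R + R ^ 2
    · rw [if_pos h2, if_neg]
      rintro ⟨j, hj, hwj⟩
      exact hwj (only h hi hw (by rintro rfl; omega))
    · rw [if_neg h2, if_pos ⟨i, by omega, hw⟩]
  · rw [if_neg hG, if_neg fun ⟨i, hi, hw⟩ => hG ⟨i, by omega, hw⟩]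
    refine prod_eq_one fun i _ => ?_
    split_ifs with hw
    · rfl
    · rw [cz, if_pos (by by_contra hc; exact hG ⟨i, by omega, hw⟩)]

theorem xw_pow (o : Mod) {w : Gp o.R} (h : nrm w ≤ 2) (d : ℕ) :
    o.xw w ^ d = wc (cz o.R 1 (o.x1 ^ d) (o.x2 ^ d)) w := by
  rw [wc_cz h, Mod.xw]
  split_ifs <;> simp

theorem edge (o : Mod) {α β : Gp o.R} (h : nrm α + nrm β ≤ 2) :
    o.xw (β - α) = o.xw α * o.xw β ∧ (isG (β - α) ↔ isG α ∨ isG β) := by
  by_cases ha : α = 0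
  · subst ha; simp [Mod.xw, isG]
  by_cases hb : β = 0
  · subst hb; simp [Mod.xw, isG]; congr
  have h1 : nrm α ≠ 0 := fun e => ha (Pe.nrm_eq_zero.1 e)
  have h2 : nrm β ≠ 0 := fun e => hb (Pe.nrm_eq_zero.1 e)
  have la := light (w := α) (by omega)
  have lb := light (w := β) (by omega)
  have k : ∀ w : Gp o.R, (∀ i : Fin (ng o.R), o.R ≤ i.val → w i = 0) → ¬ isG w ∧ o.xw w = 1 := by
    intro w hw
    have : ¬ isG w := fun ⟨i, hi, hn⟩ => hn (hw i hi)
    refine ⟨this, ?_⟩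
    rw [Mod.xw, if_neg this, if_neg fun ⟨i, hi, hn⟩ => hn (hw i (by omega))]
  have k3 := k (β - α) fun i hi => by simp [la i hi, lb i hi]
  simp [k3.1, k3.2, (k α la).1, (k α la).2, (k β lb).1, (k β lb).2]

theorem nrm_sub {α β : Gp R} (h : ∀ i, α i = 0 ∨ β i = 0) : nrm (β - α) = nrm α + nrm β := by
  rw [nrm, nrm, nrm, ← sum_add_distrib]
  refine sum_congr rfl fun i _ => ?_
  rcases h i with e | e <;> simp [e]

end Pool.Agent.Lib.MP_9cc147_pr.Cx.Cp
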