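import Pool.Agent.Lib.MP_9cc147_pr.Cx.Cp.Core

/-! The normalised weight of a pure tile. -/

open scoped Classical Topology
open Finset Filter

noncomputable section
namespace Pool.Agent.Lib.MP_9cc147_pr.Cx

namespace Cp
variable {o : Mod} {n L : ℕ} {s : Lab} {T : P}

theorem Ok.rp (h : Ok o) (hn : 2 ≤ n) (hT : cell L T ⊆ box n) :
    o.r ^ (-nexp n L {T} fun _ => some s) * ∏ x : cell L T, o.r ^ typ s x =
      o.r ^ cor n (cell L T) s := by
  rw [prod_pow_eq_pow_sum, ← Real.rpow_natCast, ← Real.rpow_add h.r0, Nat.cast_sum,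
    sum_coe_sort (cell L T) fun x => (typ s x : ℝ), ← nexp_eq hn hT]
  congr 1
  ring

theorem Ok.plain (h : Ok o) (hu : S_uni) (hL : 20 ≤ L) (hn : 2 ≤ n) (hT : cell L T ⊆ box n)
    (hq : ∀ x ∈ cell L T, ¬ cq n x) {η : ℝ} (h1 : η ≤ 1)
    (hp : 10 * ((cell L T).card : ℝ) ^ 2 / o.R ≤ η / 4) :
    |Real.log (o.cp n L s T) - (nbe n L s T False * o.a + nbe n L s T True * o.bb)| ≤ η := by
  have hc : ∀ x ∈ cell L T, ¬ corner n x := fun x hx k => hq x hx (by
    simp only [corner, cq] at k ⊢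
    omega)
  have c0 : cor n (cell L T) s = 0 := by
    rw [cor, filter_eq_empty_iff.2 hc, sum_empty]
  let ℓ : P → ℝ := fun x => if typ s x = 2 then (if deep 1 n x then o.a else o.bb) else 0
  obtain ⟨a0, -, a2, a4, -⟩ := h.facts
  have z : ∀ x : cell L T, Zs o (dgr n x) (typ s x) = o.r ^ typ s x * Real.exp (ℓ x) := by
    intro x
    obtain ⟨-, d4, d3⟩ := dgr_eq (hT x.2) hn
    rw [h.Zv _ (typ_le _ _)]
    simp only [ℓ]
    split_ifs with c1 c2
    · rw [d4 c2, a4]; ring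
    · rw [d3 c2 (hc x x.2), Mod.bb, Real.exp_log (by positivity)]
    · rw [Real.exp_zero]
  have sl : ∑ x ∈ cell L T, ℓ x = nbe n L s T False * o.a + nbe n L s T True * o.bb := by
    rw [nbe, nbe, card_filter, card_filter]
    push_cast
    rw [sum_mul, sum_mul, ← sum_add_distrib]
    refine sum_congr rfl fun x _ => ?_
    by_cases c1 : typ s x = 2 <;> by_cases c2 : deep 1 n x <;> simp [ℓ, c1, c2]
  have e1 : o.r ^ (-nexp n L {T} fun _ => some s) * PZ o n s (cell L T) =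
      Real.exp (∑ x ∈ cell L T, ℓ x) := by
    rw [PZ, prod_congr rfl fun x _ => z x, prod_mul_distrib, ← mul_assoc, h.rp hn hT, c0,
      Real.rpow_zero, one_mul, ← Real.exp_sum, sum_coe_sort (cell L T) ℓ]
  have e2 := h.sum_pur (s := s) hu hL hT hq fun _ => 1
  simp only [mul_one] at e2
  obtain ⟨s1, s2⟩ := h.sg (s := s) hT hn
  have z0 := h.PZ0 (n := n) (s := s) (cell L T)
  have p0 : 0 ≤ 10 * ((cell L T).card : ℝ) ^ 2 / o.R :=
    div_nonneg (mul_nonneg (by norm_num) (sq_nonneg _)) (Nat.cast_nonneg _)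
  set t := SG o n s (cell L T) / PZ o n s (cell L T) with ht
  have t1 : t ≤ 1 := (div_le_one z0).2 s2
  have t2 : 1 - η / 4 ≤ t := by rw [ht, le_div_iff₀ z0]; nlinarith
  have t0 : 0 < t := by linarith
  have e3 : o.cp n L s T = Real.exp (∑ x ∈ cell L T, ℓ x) * t := by
    rw [← e1, ht, mul_assoc, mul_div_cancel₀ _ z0.ne']
    exact congrArg (fun y => o.r ^ (-nexp n L {T} fun _ => some s) * y) e2
  rw [e3, Real.log_mul (Real.exp_pos _).ne' t0.ne', Real.log_exp, sl, add_sub_cancel_left, abs_le]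
  have l1 := Real.one_sub_inv_le_log_of_pos t0
  have l2 := Real.log_nonpos t0.le t1
  have l3 : t⁻¹ ≤ 1 + η := by
    rw [inv_le_iff_one_le_mul₀ t0]
    nlinarith
  exact ⟨by linarith, by linarith⟩

theorem Ok.cp_low (h : Ok o) (hu : S_uni) (hL : 20 ≤ L) (hn : 2 ≤ n) (hT : cell L T ⊆ box n)
    (hp : 10 * ((cell L T).card : ℝ) ^ 2 / o.R ≤ 1 / 2) :
    o.r ^ cor n (cell L T) s / 2 ^ (L ^ 2 + 1) ≤ o.cp n L s T := by
  have s1 := (h.sg (s := s) hT hn).1
  have z0 := h.PZ0 (n := n) (s := s) (cell L T)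
  have lo := h.low (s := s) hu hL hT
  have r0 := h.r0
  have e : (∏ x : cell L T, o.r ^ typ s x) / 2 ^ L ^ 2 ≤ PZ o n s (cell L T) := by
    have : (2 : ℝ) ^ L ^ 2 = ∏ _x : cell L T, 2 := by
      rw [prod_const, card_univ, Fintype.card_coe, Pe.card_cell]
    rw [this, ← prod_div_distrib]
    exact prod_le_prod (fun _ _ => (half_pos (pow_pos r0 _)).le) fun x _ => h.Zl _ (typ_le _ _)
  rw [← h.rp hn hT, mul_div_assoc, pow_succ, ← div_div]
  refine mul_le_mul_of_nonneg_left ?_ (Real.rpow_nonneg r0.le _)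
  change _ ≤ ∑ δ ∈ pur o.R n L 0 s T, pw o n (cell L T) δ
  nlinarith

theorem Ok.cp_up (h : Ok o) (hL : 20 ≤ L) {Λ : ℝ} (hc : ((pur o.R n L 0 s T).card : ℝ) ≤
    Λ * o.r ^ (nexp n L {T} (fun _ => some s) + cor n (cell L T) s)) :
    o.cp n L s T ≤ o.r ^ cor n (cell L T) s * (Λ * 2 ^ (8 * L ^ 2)) := by
  have r0 := h.r0
  have b : ∀ δ ∈ pur o.R n L 0 s T, ∏ e ∈ he n (cell L T), Real.sqrt (o.xw (δ e)) ≤
      2 ^ (8 * L ^ 2) := by
    intro δ _
    have c := Pe.card_he (L := L) (by omega) n {T}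
    rw [under1, card_singleton, mul_one] at c
    refine le_trans ?_ (pow_le_pow_right₀ (by norm_num) c)
    rw [← prod_const]
    exact prod_le_prod (fun _ _ => Real.sqrt_nonneg _) fun e _ =>
      Real.sqrt_le_iff.2 ⟨by norm_num, (h.xw0 _).2.trans (by norm_num)⟩
  have c := sum_le_card_nsmul _ _ _ b
  rw [nsmul_eq_mul] at c
  refine (mul_le_mul_of_nonneg_left (c.trans (mul_le_mul_of_nonneg_right hc
    (pow_nonneg zero_le_two _))) (Real.rpow_nonneg r0.le _)).trans (le_of_eq ?_)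
  rw [Real.rpow_add r0, Real.rpow_neg r0.le]
  have := (Real.rpow_pos_of_pos r0 (nexp n L {T} fun _ => some s)).ne'
  field_simp

/-- the constants of the model are chosen so that collisions are rare -/
theorem ev_ok (L : ℕ) (hL : 1 ≤ L) : EvM fun η R gap Bw _ => 0 < η ∧ η ≤ 1 ∧ ∀ h (τ : rect),
    Ok (Mod.mk' η R gap Bw h τ) ∧ ∀ T, 10 * ((cell L T).card : ℝ) ^ 2 / R ≤ η / 4 := by
  refine ((evm_η one_pos).and (evm_R fun η => 40 * (L : ℝ) ^ 4 / η)).mono ?_
  rintro η R g B t ⟨⟨h0, h1⟩, he, hR⟩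
  have l : (1 : ℝ) ≤ (L : ℝ) ^ 4 := one_le_pow₀ (by exact_mod_cast hL)
  rw [div_le_iff₀ h0] at hR
  have r : (0 : ℝ) < R := by
    by_contra hc
    nlinarith
  refine ⟨h0, h1, fun h τ => ⟨⟨he, ?_, τ.2⟩, fun T => ?_⟩⟩
  · exact_mod_cast r
  · rw [Pe.card_cell, div_le_iff₀ r]
    push_cast
    nlinarith
end Cp

theorem t_cp (h_uni : S_uni) (h_pei : S_pei) : S_cp := by
  obtain ⟨Λ, hΛ⟩ := Eventually.choice h_pei
  obtain ⟨N, hN⟩ := eventually_atTop.1 hΛ
  filter_upwards [fp_L (max N 20), fp_C fun L _ _ _ => (Λ L * 2 ^ (8 * L ^ 2 + 1)) ^ 4]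
    with q hL hC
  have l20 : 20 ≤ q.L := (le_max_right _ _).trans hL.2
  obtain ⟨Λ1, hpei⟩ := hN q.L ((le_max_left _ _).trans hL.2)
  refine (Cp.ev_ok q.L (by omega)).mono ?_
  rintro η R g B t ⟨h0, h1, hok⟩ h τ b hb s T hT
  obtain ⟨ok, hp⟩ := hok h τ
  obtain ⟨c1, c2, c3, -⟩ := Cp.tile l20 hT
  intro o
  rw [Cp.n_eq]
  split_ifs with hc
  · have hm : q.L ^ 2 ≤ q.m b 0 := by
      obtain ⟨b1, -, b2⟩ := hb
      calc q.L ^ 2 ≤ 1 * q.L ^ (b.2 + 1 - 0) := by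
            rw [one_mul]; exact Nat.pow_le_pow_right (by omega) (by omega)
        _ ≤ _ := Nat.mul_le_mul_right _ (by omega)
    have up := ok.cp_up l20 ((hpei R _ ok.one hm).2 s T hT)
    have lo := ok.cp_low (s := s) h_uni l20 c2 c1 ((hp T).trans (by linarith))
    have r0 := ok.r0
    set D : ℝ := Λ q.L * 2 ^ (8 * q.L ^ 2 + 1) with hD
    have p1 : (2 : ℝ) ^ (8 * q.L ^ 2) ≤ 2 ^ (8 * q.L ^ 2 + 1) :=
      pow_le_pow_right₀ (by norm_num) (by omega)
    have p2 : (2 : ℝ) ^ (q.L ^ 2 + 1) ≤ D :=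
      (pow_le_pow_right₀ (by norm_num) (by omega)).trans 
        (le_mul_of_one_le_left (pow_nonneg zero_le_two _) Λ1)
    have D0 : 0 < D := (pow_pos two_pos _).trans_le p2
    have e0 : 0 < o.r ^ cor (q.L * q.m b 0) (cell q.L T) s := Real.rpow_pos_of_pos r0 _
    have u1 := up.trans (mul_le_mul_of_nonneg_left
      (mul_le_mul_of_nonneg_left p1 (by linarith)) e0.le)
    have u2 := (div_le_div_of_nonneg_left e0.le (pow_pos two_pos _) p2).trans lo
    have k0 := lt_of_lt_of_le (div_pos e0 D0) u2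
    have k1 := Real.log_le_log k0 u1
    have k2 := Real.log_le_log (div_pos e0 D0) u2
    have k3 := Real.log_le_log (pow_pos D0 4) hC
    rw [Real.log_mul e0.ne' D0.ne', Real.log_rpow r0] at k1
    rw [Real.log_div e0.ne' D0.ne', Real.log_rpow r0] at k2
    rw [Real.log_pow] at k3
    push_cast at k3
    exact abs_le.2 ⟨by linarith, by linarith⟩
  · exact ok.plain h_uni l20 c2 c1 (c3 hc) h1 (hp T)

end Pool.Agent.Lib.MP_9cc147_pr.Cx
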